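import Pool.Agent.W211.AF.Stm

set_option autoImplicit false

namespace Pool.Agent.W115.AFStb
open Pool.Agent.W211.AF FreeGroup

lemma mem_ball {M : ℕ} {l : List Lt} : l ∈ ball M ↔ l.length ≤ M := by
  simp [ball]

lemma KL_nonneg {K : G → ℝ} (hK : ∀ g, 0 ≤ K g) (l : List Lt) : 0 ≤ KL K l := by
  unfold KL; split_ifs
  · exact hK _
  · exact le_rfl

lemma KL_of_red {K : G → ℝ} {l : List Lt} (h : reduce l = l) : KL K l = K (mk l) := by
  unfold KL; rw [if_pos h]

lemma mk_inj {l l' : List Lt} (h : reduce l = l) (h' : reduce l' = l')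
    (he : (mk l : G) = mk l') : l = l' := by
  have := congrArg toWord he
  rwa [toWord_mk, toWord_mk, h, h'] at this

lemma sum_le_X {ι : Type} (K : G → ℝ) (hK : ∀ g, 0 ≤ K g) (I : Finset ι) (φ : ι → List Lt)
    (X : Finset (List Lt)) (hφ : ∀ p ∈ I, φ p ∈ X) (hr : ∀ p ∈ I, reduce (φ p) = φ p)
    (hinj : Set.InjOn φ I) : ∑ p ∈ I, K (mk (φ p)) ≤ ∑ l ∈ X, KL K l := by
  classical
  have h1 : ∑ p ∈ I, K (mk (φ p)) = ∑ l ∈ I.image φ, KL K l := by
    rw [Finset.sum_image hinj]
    exact Finset.sum_congr rfl fun p hp => (KL_of_red (hr p hp)).symm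
  rw [h1]
  refine Finset.sum_le_sum_of_subset_of_nonneg ?_ fun l _ _ => KL_nonneg hK l
  intro l hl
  obtain ⟨p, hp, rfl⟩ := Finset.mem_image.1 hl
  exact hφ p hp

lemma sum_le_tsum' {ι : Type} (F : G → ℝ) (hF : ∀ g, 0 ≤ F g) (hs : Summable F) (I : Finset ι)
    (φ : ι → List Lt) (hr : ∀ p ∈ I, reduce (φ p) = φ p)
    (hinj : Set.InjOn φ I) : ∑ p ∈ I, F (mk (φ p)) ≤ ∑' g, F g := by
  classical
  have hinj' : Set.InjOn (fun p => (mk (φ p) : G)) I := by
    intro p hp q hq h
    exact hinj hp hq (mk_inj (hr p hp) (hr q hq) h)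
  have h1 : ∑ p ∈ I, F (mk (φ p)) = ∑ g ∈ I.image (fun p => (mk (φ p) : G)), F g := by
    rw [Finset.sum_image hinj']
  rw [h1]
  exact hs.sum_le_tsum _ fun g _ => hF g

/-- the index set -/
noncomputable def IS (M : ℕ) : Finset (Fin 2 × List Lt) :=
  ((Finset.univ : Finset (Fin 2)) ×ˢ (List.finite_length_le Lt M).toFinset).filter
    (fun p => reduce p.2 = p.2 ∧ p.2.head? ≠ some (p.1, true))

lemma red_cons {x : Lt} {h : List Lt} (hr : reduce h = h)
    (hx : ∀ y ∈ h.head?, x.1 = y.1 → x.2 = y.2) : reduce (x :: h) = x :: h := by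
  rw [← isReduced_iff_reduce_eq] at hr ⊢
  cases h with
  | nil => exact IsReduced.singleton
  | cons y t =>
    rw [isReduced_cons_cons]
    exact ⟨hx y (by simp), hr⟩

lemma IS_red {M : ℕ} {p : Fin 2 × List Lt} (hp : p ∈ IS M) :
    reduce ((p.1, false) :: p.2) = (p.1, false) :: p.2 := by
  simp only [IS, Finset.mem_filter] at hp
  obtain ⟨_, h1, h2⟩ := hp
  refine red_cons h1 ?_
  intro y hy he
  rcases y with ⟨a, b⟩
  cases b
  · rfl
  · exfalso
    apply h2
    rw [Option.mem_def] at hy
    rw [hy]
    simp only at he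
    rw [he]

lemma IS_len {M : ℕ} {p : Fin 2 × List Lt} (hp : p ∈ IS M) : p.2.length ≤ M := by
  simp only [IS, Finset.mem_filter, Finset.mem_product] at hp
  simpa using hp.1.2

theorem main : S_STB := by
  classical
  intro hcov al K F Q r S hT M
  have hF0 : 0 ≤ ∑' g, F g := tsum_nonneg S.F0
  have hT0 : ∀ M, 0 ≤ T K M := fun M => Finset.sum_nonneg fun l _ => KL_nonneg S.K0 l
  have hal : (0 : ℝ) ≤ al := by have := S.al1; linarith
  -- left side
  have hL : ∑ p ∈ IS M, K (mk p.2) = 2 * T K M - PP K M := by
    unfold IS T PP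
    rw [Finset.sum_filter, Finset.sum_product_right, Finset.sum_filter, Finset.mul_sum]
    unfold ball
    rw [← Finset.sum_sub_distrib]
    refine Finset.sum_congr rfl fun l _ => ?_
    rw [Fin.sum_univ_two]
    unfold KL
    by_cases hr : reduce l = l
    · rw [if_pos hr]
      rcases l with _ | ⟨⟨a, b⟩, t⟩
      · simp [posHead]; ring
      · have hr' : reduce ((a, b) :: t) = (a, b) :: t := hr
        cases b
        · simp [posHead, hr']; ring
        · fin_cases a
          · simp only [posHead, List.head?_cons, Option.some.injEq, Prod.mk.injEq, and_true]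
            simp only [Fin.zero_eta, Fin.isValue, if_true] at hr' ⊢
            simp [hr']
            ring
          · simp only [posHead, List.head?_cons, Option.some.injEq, Prod.mk.injEq, and_true]
            simp only [Fin.mk_one, Fin.isValue, if_true] at hr' ⊢
            simp [hr']
            ring
    · simp [hr]
  -- the inequality for each pair
  have hstep : ∀ p ∈ IS M, al * K (mk p.2) ≤ K (mk ((p.1, false) :: p.2)) +
      F (mk ((p.1, false) :: p.2)) + al * K (mk ((1 - p.1, true) :: (p.1, false) :: p.2)) +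
      r.sum fun s c => c * K (s * mk ((p.1, false) :: p.2)) := by
    rintro ⟨j, h⟩ _
    simp only
    have e1 : (of j : G) * mk ((j, false) :: h) = mk h := by
      have h1 : (of j : G) = mk [(j, true)] := rfl
      have h2 : (mk ((j, false) :: h) : G) = mk [(j, false)] * mk h := by
        rw [mul_mk]; rfl
      have h3 : (mk [(j, false)] : G) = (mk [(j, true)])⁻¹ := by
        rw [inv_mk]; rfl
      rw [h1, h2, h3, mul_inv_cancel_left]
    have e2 : (of (1 - j) : G) * mk ((j, false) :: h) = mk ((1 - j, true) :: (j, false) :: h) := by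
      have h1 : (of (1 - j) : G) = mk [(1 - j, true)] := rfl
      rw [h1, mul_mk]; rfl
    fin_cases j
    · have := S.h2 (mk ((0, false) :: h))
      simp only [Fin.zero_eta, Fin.isValue] at e1 e2 ⊢
      rw [e1] at this
      have e3 : (1 : Fin 2) - 0 = 1 := rfl
      rw [e3] at e2 ⊢
      rw [e2] at this
      exact this
    · have := S.h2' (mk ((1, false) :: h))
      simp only [Fin.mk_one, Fin.isValue] at e1 e2 ⊢
      rw [e1] at this
      have e3 : (1 : Fin 2) - 1 = 0 := rfl
      rw [e3] at e2 ⊢
      rw [e2] at this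
      exact this
  have hsum := Finset.sum_le_sum hstep
  rw [← Finset.mul_sum, hL, Finset.sum_add_distrib, Finset.sum_add_distrib,
    Finset.sum_add_distrib, ← Finset.mul_sum] at hsum
  have hinj1 : Set.InjOn (fun p : Fin 2 × List Lt => (p.1, false) :: p.2) (IS M) := by
    rintro ⟨a, h⟩ _ ⟨a', h'⟩ _ he
    simp only [List.cons.injEq, Prod.mk.injEq, and_true] at he
    rw [he.1, he.2]
  have b1 : ∑ p ∈ IS M, K (mk ((p.1, false) :: p.2)) ≤ T K (M + 1) := by
    refine sum_le_X K S.K0 (IS M) (fun p => (p.1, false) :: p.2) (ball (M + 1)) ?_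
      (fun p hp => IS_red hp) hinj1
    intro p hp
    rw [mem_ball, List.length_cons]
    have := IS_len hp
    omega
  have b2 : ∑ p ∈ IS M, F (mk ((p.1, false) :: p.2)) ≤ ∑' g, F g :=
    sum_le_tsum' F S.F0 S.F1 (IS M) (fun p => (p.1, false) :: p.2) (fun p hp => IS_red hp) hinj1
  have b3 : ∑ p ∈ IS M, K (mk ((1 - p.1, true) :: (p.1, false) :: p.2)) ≤ PP K (M + 2) := by
    refine sum_le_X K S.K0 (IS M) (fun p => (1 - p.1, true) :: (p.1, false) :: p.2)
      ((ball (M + 2)).filter (fun l => posHead l = true)) ?_ ?_ ?_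
    · intro p hp
      rw [Finset.mem_filter, mem_ball, List.length_cons, List.length_cons]
      have := IS_len hp
      exact ⟨by omega, rfl⟩
    · intro p hp
      refine red_cons (IS_red hp) ?_
      intro y hy he
      simp only [List.head?_cons, Option.mem_def, Option.some.injEq] at hy
      subst hy
      exfalso
      rcases p with ⟨j, h⟩
      simp only at he
      fin_cases j
      · exact absurd he (by decide)
      · exact absurd he (by decide)
    · rintro ⟨a, h⟩ _ ⟨a', h'⟩ _ he
      simp only [List.cons.injEq, Prod.mk.injEq, and_true] at he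
      rw [he.2.1, he.2.2]
  have b4 : ∑ p ∈ IS M, (r.sum fun s c => c * K (s * mk ((p.1, false) :: p.2))) ≤
      1 / 10000 * (6 * T K (M + 1) + 24 * ∑' g, F g) := by
    have hB : 0 ≤ 6 * T K (M + 1) + 24 * ∑' g, F g := by
      have := hT0 (M + 1)
      positivity
    have hs : ∀ s : G, ∑ p ∈ IS M, K (s * mk ((p.1, false) :: p.2)) ≤
        6 * T K (M + 1) + 24 * ∑' g, F g := by
      intro s
      have hw : ∀ p : Fin 2 × List Lt, (s * mk ((p.1, false) :: p.2) : G) =
          mk (reduce (s.toWord ++ ((p.1, false) :: p.2))) := by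
        intro p
        rw [← toWord_mk, mk_toWord, ← mul_mk, mk_toWord]
      have c1 : ∑ p ∈ IS M, K (s * mk ((p.1, false) :: p.2)) ≤
          P K (M + 1) (s.toWord.map some) := by
        simp only [hw]
        refine sum_le_X K S.K0 (IS M) (fun p => reduce (s.toWord ++ ((p.1, false) :: p.2)))
          (XL (M + 1) (s.toWord.map some)) ?_ ?_ ?_
        · intro p hp
          have hm : (p.1, false) :: p.2 ∈ XL (M + 1) [] := by
            change _ ∈ ball (M + 1)
            rw [mem_ball, List.length_cons]
            have := IS_len hp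
            omega
          have hc := hcov (M + 1) s.toWord ((p.1, false) :: p.2) [] isReduced_toWord
            (isReduced_iff_reduce_eq.2 (IS_red hp)) hm
          rcases hc with ⟨π', hπ', hc⟩ | hc
          · have hs0 : s.toWord.reverse = [] := by
              rcases hsr : s.toWord.reverse with _ | ⟨x, t⟩
              · rfl
              · rw [hsr] at hπ'
                simp [cov] at hπ'
            have hs1 : s.toWord = [] := by simpa using hs0
            rw [hs0] at hπ'
            simp only [cov, List.mem_singleton] at hπ'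
            rw [hπ'] at hc
            rw [hs1] at hc ⊢
            exact hc
          · exact hc
        · intro p _
          exact reduce.idem
        · intro p hp q hq he
          apply hinj1 hp hq
          apply mk_inj (IS_red hp) (IS_red hq)
          have he' := congrArg (mk : List Lt → G) he
          simp only at he'
          rw [← hw p, ← hw q] at he'
          exact mul_left_cancel he'
      have hnone : (none : Option Lt) ∉ s.toWord.map some := by simp
      have c2 := hT (M + 1) (s.toWord.map some)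
      rw [if_neg hnone, List.count_eq_zero_of_not_mem hnone, pow_zero, one_mul] at c2
      refine c1.trans (c2.trans ?_)
      have h0 := hT0 (M + 1)
      split_ifs
      · nlinarith
      · nlinarith
    have e : ∑ p ∈ IS M, (r.sum fun s c => c * K (s * mk ((p.1, false) :: p.2))) =
        r.sum fun s c => c * ∑ p ∈ IS M, K (s * mk ((p.1, false) :: p.2)) := by
      simp only [Finsupp.sum, Finset.mul_sum]
      rw [Finset.sum_comm]
    rw [e]
    have h1 : (r.sum fun s c => c * ∑ p ∈ IS M, K (s * mk ((p.1, false) :: p.2))) ≤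
        r.sum fun _ c => c * (6 * T K (M + 1) + 24 * ∑' g, F g) :=
      Finset.sum_le_sum fun s _ => mul_le_mul_of_nonneg_left (hs s) (S.r0 s)
    refine h1.trans ?_
    have h2 : (r.sum fun _ c => c * (6 * T K (M + 1) + 24 * ∑' g, F g)) =
        (r.sum fun _ c => c) * (6 * T K (M + 1) + 24 * ∑' g, F g) := by
      simp only [Finsupp.sum, Finset.sum_mul]
    rw [h2]
    exact mul_le_mul_of_nonneg_right S.r1 hB
  have b3' := mul_le_mul_of_nonneg_left b3 hal
  linarith

end Pool.Agent.W115.AFStb
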